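import Pool.Agent.Helper2.Tate.Bound
import Pool.Agent.Helper2.Tate.Twin
import Pool.Agent.Helper2.Tate.Dickson
import Pool.Agent.Helper2.Tate.Divisors

/-!
# The Tate conjecture for an explicit family of cyclic planes

Let `F` be a finite field with `q` elements, `ℓ` a prime dividing `q - 1` and `N = ℓ ^ k`. Let
`a, D₁, D₂, B₁, B₂` be polynomials over `F` with `deg a ≤ N`, where `D₁, D₂, B₁, B₂` are irreducible
of degrees prime to `ℓ`, `deg D₁ + deg D₂ = deg B₁ + deg B₂ = ℓ N` and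
`a ^ ℓ = D₁ D₂ + B₁ B₂`. Then the cyclic covering of the plane
`Y : w ^ ℓ = (x ^ N + a(y, z)) ^ ℓ - D₁(y, z) D₂(y, z)`
is smooth, the number of eigenvalues `α` of the Frobenius on its second cohomology group with
`α ^ m = q ^ m` is at most `ℓ` for all `m` prime to the four degrees, and the `ℓ` curves
`D₁ = 0, w = ζ (x ^ N + a)` are independent. So the Tate conjecture for divisors holds for `Y` over
the extension of degree `m` of `F`, with Picard number `ℓ`. Twin irreducible polynomials `P, P + 1`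
of degree `ℓ ^ (k + 1) - 1` give such data (the surface is `w ^ ℓ = (x ^ N + 1) ^ ℓ + P(z)`), and
they exist for all `ℓ` and `k`: for suitable primes one can take for `P` an affine function of a
Dickson polynomial.
-/

set_option autoImplicit false

namespace Pool.Agent.Results.MP_8ac872_ag.ExplicitFamily

open Pool.Agent.Helper2.Tate Polynomial

theorem result :
    (∀ (F : Type) [Field F] [Fintype F] (ℓ k : ℕ) (a D₁ D₂ B₁ B₂ : F[X]),
      ℓ.Prime → ℓ ∣ Fintype.card F - 1 → Admissible ℓ k a D₁ D₂ B₁ B₂ →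
        (formF ℓ k a D₁ D₂).IsHomogeneous (ℓ * ℓ ^ k) ∧
        SmoothCurve F (formF ℓ k a D₁ D₂) ∧
        (∀ Q : ℤ[X], IsFrobTwo (Fintype.card F)
            (fun n => (coverPoints F ℓ ∅ (formF ℓ k a D₁ D₂) n).ncard) Q →
          ∀ m : ℕ, 1 ≤ m → m.Coprime D₁.natDegree → m.Coprime D₂.natDegree →
            m.Coprime B₁.natDegree → m.Coprime B₂.natDegree →
            mult (Fintype.card F) Q m ≤ ℓ) ∧
        OffCurves F ℓ (ℓ ^ k) (hom D₁.natDegree D₁) (-hom D₂.natDegree D₂) (formV ℓ k a)) ∧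
    (∀ (F : Type) [Field F] (ℓ k : ℕ) (P : F[X]), ℓ.Prime → 1 ≤ k →
      P.natDegree = ℓ ^ (k + 1) - 1 → Irreducible P → Irreducible (P + 1) →
        Admissible ℓ k (X ^ ℓ ^ k) (-X) P.reverse X (P + 1).reverse) ∧
    (∀ ℓ k : ℕ, ℓ.Prime → 1 ≤ k → ∃ (p : ℕ) (_ : Fact p.Prime) (α β : ZMod p),
      ℓ ∣ p - 1 ∧ α ≠ 0 ∧
      (C α * dickson 1 1 (ℓ ^ (k + 1) - 1) + C β).natDegree = ℓ ^ (k + 1) - 1 ∧
      Irreducible (C α * dickson 1 1 (ℓ ^ (k + 1) - 1) + C β) ∧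
      Irreducible (C α * dickson 1 1 (ℓ ^ (k + 1) - 1) + C β + 1)) := by
  refine ⟨?_, ?_, ?_⟩
  · intro F _ _ ℓ k a D₁ D₂ B₁ B₂ hℓ hq h
    have hs := family_smooth F ℓ k a D₁ D₂ B₁ B₂ hℓ hq h
    have hv := formV_isHomogeneous (F := F) ℓ k a
    refine ⟨?_, hs, ?_, ?_⟩
    · unfold formF
      apply MvPolynomial.IsHomogeneous.add
      · have h1 := (hom_isHomogeneous D₁.natDegree D₁).mul (hom_isHomogeneous D₂.natDegree D₂).neg
        rw [h.deg_D] at h1
        have h2 : ℓ ^ (k + 1) = ℓ * ℓ ^ k := by ring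
        rwa [h2] at h1
      · have h1 := hv.pow ℓ
        rwa [mul_comm] at h1
    · intro Q hQ m hm h1 h2 h3 h4
      exact family_mult_le F ℓ k a D₁ D₂ B₁ B₂ hℓ hq h Q hQ m hm h1 h2 h3 h4
    · exact offCurves F ℓ hℓ (ℓ ^ k) D₂.natDegree (Nat.pow_pos hℓ.pos) _ _ _
        (hom_isHomogeneous D₂.natDegree D₂).neg h.irr_D₂.natDegree_pos hv hs
  · intro F _ ℓ k P hℓ hk hd h1 h2
    exact admissible_twin ℓ k hℓ hk P hd h1 h2
  · intro ℓ k hℓ hk
    refine exists_twin ℓ (ℓ ^ (k + 1) - 1) hℓ.one_le ?_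
    have : 2 ≤ ℓ ^ (k + 1) := by
      calc 2 ≤ ℓ := hℓ.two_le
        _ = ℓ ^ 1 := (pow_one ℓ).symm
        _ ≤ ℓ ^ (k + 1) := Nat.pow_le_pow_right hℓ.pos (by omega)
    omega

end Pool.Agent.Results.MP_8ac872_ag.ExplicitFamily
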